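import Pool.Agent.X59.OC.Fin

/-! Sums over the classes of a division into three classes, for a 3-graph without `K_4^3`. -/

set_option autoImplicit false
open Finset
open scoped Classical

namespace Pool.Agent.X59.LF

open Pool.Agent.X59.OC

variable {n : ℕ} {H : Finset (Finset (Fin n))} {c : Fin n → Fin 3}

/-- ordered edges inside the class `i` -/
noncomputable def W1 (H : Finset (Finset (Fin n))) (c : Fin n → Fin 3) (i : Fin 3) : ℝ :=
  ∑ x ∈ Cls c i, ∑ y ∈ Cls c i, ∑ w ∈ Cls c i, e H x y w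
/-- ordered edges with two vertices in the class `i` and one in the class `i + 2` -/
noncomputable def W2 (H : Finset (Finset (Fin n))) (c : Fin n → Fin 3) (i : Fin 3) : ℝ :=
  ∑ x ∈ Cls c i, ∑ y ∈ Cls c i, ∑ z ∈ Cls c (i + 2), e H x y z
/-- ordered missing triples with two vertices in the class `i` and one in the class `i + 1` -/
noncomputable def M2 (H : Finset (Finset (Fin n))) (c : Fin n → Fin 3) (i : Fin 3) : ℝ :=
  ∑ x ∈ Cls c i, ∑ y ∈ Cls c i, ∑ v ∈ Cls c (i + 1), mi H x y v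
/-- missing triples which meet all classes -/
noncomputable def M3 (H : Finset (Finset (Fin n))) (c : Fin n → Fin 3) (i : Fin 3) : ℝ :=
  ∑ x ∈ Cls c i, ∑ v ∈ Cls c (i + 1), ∑ z ∈ Cls c (i + 2), mi H x v z

/-- the size of a class -/
noncomputable def sz (c : Fin n → Fin 3) (j : Fin 3) : ℝ := ((Cls c j).card : ℝ)

lemma sz_nonneg (j : Fin 3) : 0 ≤ sz c j := Nat.cast_nonneg _

lemma e_le (x y z : Fin n) : e H x y z ≤ 1 := by unfold e; split_ifs <;> norm_num
lemma mi_le (x y z : Fin n) : mi H x y z ≤ 1 := by unfold mi; split_ifs <;> norm_num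

lemma e_s12 (x y z : Fin n) : e H x y z = e H y x z := e_swap12 x y z
lemma e_s23 (x y z : Fin n) : e H x y z = e H x z y := e_swap23 x y z

lemma mi_s12 (x y z : Fin n) : mi H x y z = mi H y x z := by
  unfold mi
  have : Mi H x y z ↔ Mi H y x z := ⟨Mi_swap12, Mi_swap12⟩
  simp only [this]
lemma mi_s23 (x y z : Fin n) : mi H x y z = mi H x z y := by
  unfold mi
  have : Mi H x y z ↔ Mi H x z y := ⟨Mi_swap23, Mi_swap23⟩
  simp only [this]

/-- among four vertices one triple is missing -/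
lemma quad (hF : ∀ S : Finset (Fin n), S.card = 4 → ∃ t ⊆ S, t.card = 3 ∧ t ∉ H)
    {x y z w : Fin n} (hxy : x ≠ y) (hxz : x ≠ z) (hxw : x ≠ w) (hyz : y ≠ z) (hyw : y ≠ w)
    (hzw : z ≠ w) : ({x, y, z} : Finset (Fin n)) ∉ H ∨ ({x, y, w} : Finset (Fin n)) ∉ H ∨
      ({x, z, w} : Finset (Fin n)) ∉ H ∨ ({y, z, w} : Finset (Fin n)) ∉ H := by
  have hS : ({x, y, z, w} : Finset (Fin n)).card = 4 := by
    rw [card_insert_of_notMem, card_insert_of_notMem, card_pair hzw]
    · simp [hyz, hyw]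
    · simp [hxy, hxz, hxw]
  obtain ⟨t, ht, h3, hH⟩ := hF _ hS
  have hcd : (({x, y, z, w} : Finset (Fin n)) \ t).card = 1 := by
    rw [card_sdiff_of_subset ht, hS, h3]
  obtain ⟨u, hu⟩ := card_eq_one.1 hcd
  have hu1 : u ∈ ({x, y, z, w} : Finset (Fin n)) \ t := by rw [hu]; simp
  have heq : t = ({x, y, z, w} : Finset (Fin n)).erase u := by
    rw [← sdiff_singleton_eq_erase, ← hu, Finset.sdiff_sdiff_eq_self ht]
  rw [mem_sdiff] at hu1
  have hu2 := hu1.1
  simp only [mem_insert, mem_singleton] at hu2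
  have key : ∀ a b d f : Fin n, a ≠ b → a ≠ d → a ≠ f →
      ({a, b, d, f} : Finset (Fin n)).erase a = {b, d, f} := by
    intro a b d f h1 h2 h3
    rw [erase_insert]
    simp [h1, h2, h3]
  rcases hu2 with h | h | h | h
  · right; right; right
    rw [heq, h, key x y z w hxy hxz hxw] at hH
    exact hH
  · right; right; left
    have e1 : ({x, y, z, w} : Finset (Fin n)) = {y, x, z, w} := insert_comm _ _ _
    rw [heq, h, e1, key y x z w hxy.symm hyz hyw] at hH
    exact hH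
  · right; left
    have e1 : ({x, y, z, w} : Finset (Fin n)) = {z, x, y, w} := by
      ext; simp only [mem_insert, mem_singleton]; tauto
    rw [heq, h, e1, key z x y w hxz.symm hyz.symm hzw] at hH
    exact hH
  · left
    have e1 : ({x, y, z, w} : Finset (Fin n)) = {w, x, y, z} := by
      ext; simp only [mem_insert, mem_singleton]; tauto
    rw [heq, h, e1, key w x y z hxw.symm hyw.symm hzw.symm] at hH
    exact hH

variable (hF : ∀ S : Finset (Fin n), S.card = 4 → ∃ t ⊆ S, t.card = 3 ∧ t ∉ H)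
  (h3 : ∀ s ∈ H, s.card = 3)

include hF h3

/-- an edge `xyz` and a fourth vertex -/
lemma ext1 {x y z v : Fin n} (hv : v ≠ x ∧ v ≠ y ∧ v ≠ z) :
    e H x y z ≤ e H x y z * (mi H x y v + mi H x v z + mi H y v z) := by
  by_cases h : ({x, y, z} : Finset (Fin n)) ∈ H
  · have he : e H x y z = 1 := by unfold e; rw [if_pos h]
    obtain ⟨n1, n2, n3⟩ := ne_of_card3 (h3 _ h)
    rw [he, one_mul]
    have p1 := mi_nonneg (H := H) x y v
    have p2 := mi_nonneg (H := H) x v z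
    have p3 := mi_nonneg (H := H) y v z
    rcases quad hF n1 n2 hv.1.symm n3 hv.2.1.symm hv.2.2.symm with q | q | q | q
    · exact absurd h q
    · have : mi H x y v = 1 := by
        unfold mi; rw [if_pos]; exact ⟨n1, hv.1.symm, hv.2.1.symm, q⟩
      linarith
    · have : mi H x v z = 1 := by
        rw [mi_s23]; unfold mi; rw [if_pos]; exact ⟨n2, hv.1.symm, hv.2.2.symm, q⟩
      linarith
    · have : mi H y v z = 1 := by
        rw [mi_s23]; unfold mi; rw [if_pos]; exact ⟨n3, hv.2.1.symm, hv.2.2.symm, q⟩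
      linarith
  · have he : e H x y z = 0 := by unfold e; rw [if_neg h]
    rw [he, zero_mul]

/-- two edges with two common vertices -/
lemma ext2 (x y z w : Fin n) :
    e H x y z * e H x y w ≤ (if z = w then e H x y z else 0) +
      (e H x y z * mi H z w x + e H x y z * mi H z w y) := by
  have a1 := e_nonneg (H := H) x y z
  have a2 := e_nonneg (H := H) x y w
  have p1 := mi_nonneg (H := H) z w x
  have p2 := mi_nonneg (H := H) z w y
  by_cases h : ({x, y, z} : Finset (Fin n)) ∈ H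
  · have he : e H x y z = 1 := by unfold e; rw [if_pos h]
    obtain ⟨n1, n2, n3⟩ := ne_of_card3 (h3 _ h)
    rw [he]
    simp only [one_mul]
    by_cases hzw : z = w
    · rw [if_pos hzw]
      have := e_le (H := H) x y w
      linarith
    · rw [if_neg hzw, zero_add]
      by_cases h' : ({x, y, w} : Finset (Fin n)) ∈ H
      · obtain ⟨-, m2, m3⟩ := ne_of_card3 (h3 _ h')
        have hew : e H x y w = 1 := by unfold e; rw [if_pos h']
        rw [hew]
        rcases quad hF n1 n2 m2 n3 m3 hzw with q | q | q | q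
        · exact absurd h q
        · exact absurd h' q
        · have : mi H z w x = 1 := by
            rw [mi_s23, mi_s12]; unfold mi; rw [if_pos]; exact ⟨n2, m2, hzw, q⟩
          linarith
        · have : mi H z w y = 1 := by
            rw [mi_s23, mi_s12]; unfold mi; rw [if_pos]; exact ⟨n3, m3, hzw, q⟩
          linarith
      · have hew : e H x y w = 0 := by unfold e; rw [if_neg h']
        rw [hew]
        linarith
  · have he : e H x y z = 0 := by unfold e; rw [if_neg h]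
    rw [he]
    simp

/-- the first inequality: edges inside a class -/
lemma I1 {κ : ℝ} (hκ : ∀ x y, c x = c y → ∑ w ∈ Cls c (c x), e H x y w ≤ κ * sz c (c x + 1))
    (i : Fin 3) : sz c (i + 1) * W1 H c i ≤ 3 * (κ * sz c (i + 1) * M2 H c i) := by
  have hne : i ≠ i + 1 := by revert i; decide
  have key : ∀ x ∈ Cls c i, ∀ y ∈ Cls c i, ∀ w ∈ Cls c i, ∀ v ∈ Cls c (i + 1),
      e H x y w ≤ e H x y w * (mi H x y v + mi H x v w + mi H y v w) := by
    intro x hx y hy w hw v hv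
    have cx : c x = i := (mem_filter.1 hx).2
    have cy : c y = i := (mem_filter.1 hy).2
    have cw : c w = i := (mem_filter.1 hw).2
    have cv : c v = i + 1 := (mem_filter.1 hv).2
    refine ext1 hF h3 ⟨?_, ?_, ?_⟩
    · rintro rfl; exact hne (cx.symm.trans cv)
    · rintro rfl; exact hne (cy.symm.trans cv)
    · rintro rfl; exact hne (cw.symm.trans cv)
  have hk : ∀ x ∈ Cls c i, ∀ y ∈ Cls c i, ∑ w ∈ Cls c i, e H x y w ≤ κ * sz c (i + 1) := by
    intro x hx y hy
    have cx : c x = i := (mem_filter.1 hx).2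
    have cy : c y = i := (mem_filter.1 hy).2
    have := hκ x y (cx.trans cy.symm)
    rw [cx] at this
    exact this
  have h1 : sz c (i + 1) * W1 H c i = ∑ x ∈ Cls c i, ∑ y ∈ Cls c i, ∑ w ∈ Cls c i,
      ∑ v ∈ Cls c (i + 1), e H x y w := by
    unfold W1 sz
    simp only [sum_const, nsmul_eq_mul, mul_sum]
  have h2 : ∑ x ∈ Cls c i, ∑ y ∈ Cls c i, ∑ w ∈ Cls c i, ∑ v ∈ Cls c (i + 1), e H x y w ≤
      ∑ x ∈ Cls c i, ∑ y ∈ Cls c i, ∑ w ∈ Cls c i, ∑ v ∈ Cls c (i + 1),
        e H x y w * (mi H x y v + mi H x v w + mi H y v w) :=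
    sum_le_sum fun x hx => sum_le_sum fun y hy => sum_le_sum fun w hw => sum_le_sum fun v hv =>
      key x hx y hy w hw v hv
  have h3' : ∑ x ∈ Cls c i, ∑ y ∈ Cls c i, ∑ w ∈ Cls c i, ∑ v ∈ Cls c (i + 1),
        e H x y w * (mi H x y v + mi H x v w + mi H y v w) =
      ∑ x ∈ Cls c i, ∑ y ∈ Cls c i, ∑ w ∈ Cls c i, ∑ v ∈ Cls c (i + 1), e H x y w * mi H x y v +
      ∑ x ∈ Cls c i, ∑ y ∈ Cls c i, ∑ w ∈ Cls c i, ∑ v ∈ Cls c (i + 1), e H x y w * mi H x v w +
      ∑ x ∈ Cls c i, ∑ y ∈ Cls c i, ∑ w ∈ Cls c i, ∑ v ∈ Cls c (i + 1), e H x y w * mi H y v w := by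
    simp only [mul_add, sum_add_distrib]
  have s1 : ∑ x ∈ Cls c i, ∑ y ∈ Cls c i, ∑ w ∈ Cls c i, ∑ v ∈ Cls c (i + 1),
      e H x y w * mi H x y v ≤ κ * sz c (i + 1) * M2 H c i := by
    unfold M2
    rw [mul_sum]
    refine sum_le_sum fun x hx => ?_
    rw [mul_sum]
    refine sum_le_sum fun y hy => ?_
    rw [← sum_mul_sum]
    exact mul_le_mul_of_nonneg_right (hk x hx y hy) (sum_nonneg fun v _ => mi_nonneg _ _ _)
  have s2 : ∑ x ∈ Cls c i, ∑ y ∈ Cls c i, ∑ w ∈ Cls c i, ∑ v ∈ Cls c (i + 1),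
      e H x y w * mi H x v w ≤ κ * sz c (i + 1) * M2 H c i := by
    refine le_trans (le_of_eq ?_) s1
    refine sum_congr rfl fun x _ => ?_
    rw [sum_comm]
    refine sum_congr rfl fun w _ => sum_congr rfl fun y _ => sum_congr rfl fun v _ => ?_
    rw [e_s23, mi_s23 x v w]
  have s3 : ∑ x ∈ Cls c i, ∑ y ∈ Cls c i, ∑ w ∈ Cls c i, ∑ v ∈ Cls c (i + 1),
      e H x y w * mi H y v w ≤ κ * sz c (i + 1) * M2 H c i := by
    refine le_trans (le_of_eq ?_) s2
    rw [sum_comm]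
    refine sum_congr rfl fun y _ => sum_congr rfl fun x _ => sum_congr rfl fun w _ =>
      sum_congr rfl fun v _ => ?_
    rw [e_s12 x y w]
  rw [h1]
  linarith

/-- the second inequality: edges with two vertices in a class and one in the class before -/
lemma I2 {θ : ℝ}
    (hθ : ∀ x z, c x = c z + 1 → ∑ y ∈ Cls c (c x), e H x y z ≤ θ * sz c (c x + 1))
    (i : Fin 3) : sz c (i + 1) * W2 H c i ≤
      ∑ x ∈ Cls c i, ∑ y ∈ Cls c i, (∑ z ∈ Cls c (i + 2), e H x y z) *
        (∑ v ∈ Cls c (i + 1), mi H x y v) + 2 * (θ * sz c (i + 1) * M3 H c i) := by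
  have hne : i ≠ i + 1 := by revert i; decide
  have hne2 : i + 2 ≠ i + 1 := by revert i; decide
  have h12 : i = i + 2 + 1 := by revert i; decide
  have key : ∀ x ∈ Cls c i, ∀ y ∈ Cls c i, ∀ z ∈ Cls c (i + 2), ∀ v ∈ Cls c (i + 1),
      e H x y z ≤ e H x y z * (mi H x y v + mi H x v z + mi H y v z) := by
    intro x hx y hy w hw v hv
    have cx : c x = i := (mem_filter.1 hx).2
    have cy : c y = i := (mem_filter.1 hy).2
    have cw : c w = i + 2 := (mem_filter.1 hw).2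
    have cv : c v = i + 1 := (mem_filter.1 hv).2
    refine ext1 hF h3 ⟨?_, ?_, ?_⟩
    · rintro rfl; exact hne (cx.symm.trans cv)
    · rintro rfl; exact hne (cy.symm.trans cv)
    · rintro rfl; exact hne2 (cw.symm.trans cv)
  have hk : ∀ x ∈ Cls c i, ∀ z ∈ Cls c (i + 2), ∑ y ∈ Cls c i, e H x y z ≤ θ * sz c (i + 1) := by
    intro x hx z hz
    have cx : c x = i := (mem_filter.1 hx).2
    have cz : c z = i + 2 := (mem_filter.1 hz).2
    have := hθ x z (by rw [cx, cz]; exact h12)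
    rw [cx] at this
    exact this
  have h1 : sz c (i + 1) * W2 H c i = ∑ x ∈ Cls c i, ∑ y ∈ Cls c i, ∑ z ∈ Cls c (i + 2),
      ∑ v ∈ Cls c (i + 1), e H x y z := by
    unfold W2 sz
    simp only [sum_const, nsmul_eq_mul, mul_sum]
  have h2 : ∑ x ∈ Cls c i, ∑ y ∈ Cls c i, ∑ z ∈ Cls c (i + 2), ∑ v ∈ Cls c (i + 1), e H x y z ≤
      ∑ x ∈ Cls c i, ∑ y ∈ Cls c i, ∑ z ∈ Cls c (i + 2), ∑ v ∈ Cls c (i + 1),
        e H x y z * (mi H x y v + mi H x v z + mi H y v z) :=
    sum_le_sum fun x hx => sum_le_sum fun y hy => sum_le_sum fun w hw => sum_le_sum fun v hv =>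
      key x hx y hy w hw v hv
  have h3' : ∑ x ∈ Cls c i, ∑ y ∈ Cls c i, ∑ z ∈ Cls c (i + 2), ∑ v ∈ Cls c (i + 1),
        e H x y z * (mi H x y v + mi H x v z + mi H y v z) =
      ∑ x ∈ Cls c i, ∑ y ∈ Cls c i, ∑ z ∈ Cls c (i + 2), ∑ v ∈ Cls c (i + 1),
        e H x y z * mi H x y v +
      ∑ x ∈ Cls c i, ∑ y ∈ Cls c i, ∑ z ∈ Cls c (i + 2), ∑ v ∈ Cls c (i + 1),
        e H x y z * mi H x v z +
      ∑ x ∈ Cls c i, ∑ y ∈ Cls c i, ∑ z ∈ Cls c (i + 2), ∑ v ∈ Cls c (i + 1),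
        e H x y z * mi H y v z := by
    simp only [mul_add, sum_add_distrib]
  have s1 : ∑ x ∈ Cls c i, ∑ y ∈ Cls c i, ∑ z ∈ Cls c (i + 2), ∑ v ∈ Cls c (i + 1),
      e H x y z * mi H x y v = ∑ x ∈ Cls c i, ∑ y ∈ Cls c i, (∑ z ∈ Cls c (i + 2), e H x y z) *
        (∑ v ∈ Cls c (i + 1), mi H x y v) := by
    refine sum_congr rfl fun x hx => sum_congr rfl fun y hy => ?_
    rw [← sum_mul_sum]
  have s2 : ∑ x ∈ Cls c i, ∑ y ∈ Cls c i, ∑ z ∈ Cls c (i + 2), ∑ v ∈ Cls c (i + 1),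
      e H x y z * mi H x v z ≤ θ * sz c (i + 1) * M3 H c i := by
    unfold M3
    rw [mul_sum]
    refine sum_le_sum fun x hx => ?_
    have : ∑ y ∈ Cls c i, ∑ z ∈ Cls c (i + 2), ∑ v ∈ Cls c (i + 1), e H x y z * mi H x v z =
        ∑ v ∈ Cls c (i + 1), ∑ z ∈ Cls c (i + 2), (∑ y ∈ Cls c i, e H x y z) * mi H x v z := by
      simp only [sum_mul]
      rw [sum_comm]
      have : ∀ z ∈ Cls c (i + 2), ∑ y ∈ Cls c i, ∑ v ∈ Cls c (i + 1), e H x y z * mi H x v z =
          ∑ v ∈ Cls c (i + 1), ∑ y ∈ Cls c i, e H x y z * mi H x v z := fun z _ => sum_comm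
      rw [sum_congr rfl this, sum_comm]
    rw [this, mul_sum]
    refine sum_le_sum fun v _ => ?_
    rw [mul_sum]
    refine sum_le_sum fun z hz => ?_
    exact mul_le_mul_of_nonneg_right (hk x hx z hz) (mi_nonneg _ _ _)
  have s3 : ∑ x ∈ Cls c i, ∑ y ∈ Cls c i, ∑ z ∈ Cls c (i + 2), ∑ v ∈ Cls c (i + 1),
      e H x y z * mi H y v z ≤ θ * sz c (i + 1) * M3 H c i := by
    refine le_trans (le_of_eq ?_) s2
    rw [sum_comm]
    refine sum_congr rfl fun y _ => sum_congr rfl fun x _ => sum_congr rfl fun w _ =>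
      sum_congr rfl fun v _ => ?_
    rw [e_s12 x y w]
  rw [h1]
  rw [s1] at h3'
  linarith

/-- the third inequality: squares of the codegrees -/
lemma I3 {θ : ℝ}
    (hθ : ∀ x z, c x = c z + 1 → ∑ y ∈ Cls c (c x), e H x y z ≤ θ * sz c (c x + 1))
    (i : Fin 3) : ∑ x ∈ Cls c i, ∑ y ∈ Cls c i, (∑ z ∈ Cls c (i + 2), e H x y z) ^ 2 ≤
      W2 H c i + 2 * (θ * sz c (i + 1) * M2 H c (i + 2)) := by
  have h12 : i = i + 2 + 1 := by revert i; decide
  have hk : ∀ x ∈ Cls c i, ∀ z ∈ Cls c (i + 2), ∑ y ∈ Cls c i, e H x y z ≤ θ * sz c (i + 1) := by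
    intro x hx z hz
    have cx : c x = i := (mem_filter.1 hx).2
    have cz : c z = i + 2 := (mem_filter.1 hz).2
    have := hθ x z (by rw [cx, cz]; exact h12)
    rw [cx] at this
    exact this
  have h1 : ∑ x ∈ Cls c i, ∑ y ∈ Cls c i, (∑ z ∈ Cls c (i + 2), e H x y z) ^ 2 =
      ∑ x ∈ Cls c i, ∑ y ∈ Cls c i, ∑ z ∈ Cls c (i + 2), ∑ w ∈ Cls c (i + 2),
        e H x y z * e H x y w := by
    refine sum_congr rfl fun x hx => sum_congr rfl fun y hy => ?_
    rw [sq, sum_mul_sum]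
  have h2 : ∑ x ∈ Cls c i, ∑ y ∈ Cls c i, ∑ z ∈ Cls c (i + 2), ∑ w ∈ Cls c (i + 2),
        e H x y z * e H x y w ≤
      ∑ x ∈ Cls c i, ∑ y ∈ Cls c i, ∑ z ∈ Cls c (i + 2), ∑ w ∈ Cls c (i + 2),
        ((if z = w then e H x y z else 0) +
          (e H x y z * mi H z w x + e H x y z * mi H z w y)) :=
    sum_le_sum fun x hx => sum_le_sum fun y hy => sum_le_sum fun w hw => sum_le_sum fun v hv =>
      ext2 hF h3 x y w v
  have h3' : ∑ x ∈ Cls c i, ∑ y ∈ Cls c i, ∑ z ∈ Cls c (i + 2), ∑ w ∈ Cls c (i + 2),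
        ((if z = w then e H x y z else 0) +
          (e H x y z * mi H z w x + e H x y z * mi H z w y)) =
      W2 H c i +
      (∑ x ∈ Cls c i, ∑ y ∈ Cls c i, ∑ z ∈ Cls c (i + 2), ∑ w ∈ Cls c (i + 2),
        e H x y z * mi H z w x +
      ∑ x ∈ Cls c i, ∑ y ∈ Cls c i, ∑ z ∈ Cls c (i + 2), ∑ w ∈ Cls c (i + 2),
        e H x y z * mi H z w y) := by
    simp only [sum_add_distrib]
    congr 1
    unfold W2
    refine sum_congr rfl fun x hx => sum_congr rfl fun y hy => sum_congr rfl fun z hz => ?_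
    rw [sum_ite_eq, if_pos hz]
  have s2 : ∑ x ∈ Cls c i, ∑ y ∈ Cls c i, ∑ z ∈ Cls c (i + 2), ∑ w ∈ Cls c (i + 2),
      e H x y z * mi H z w x ≤ θ * sz c (i + 1) * M2 H c (i + 2) := by
    unfold M2
    rw [← h12]
    have : ∑ x ∈ Cls c i, ∑ y ∈ Cls c i, ∑ z ∈ Cls c (i + 2), ∑ w ∈ Cls c (i + 2),
        e H x y z * mi H z w x =
        ∑ z ∈ Cls c (i + 2), ∑ w ∈ Cls c (i + 2), ∑ x ∈ Cls c i,
          (∑ y ∈ Cls c i, e H x y z) * mi H z w x := by
      have a1 : ∀ x ∈ Cls c i, ∑ y ∈ Cls c i, ∑ z ∈ Cls c (i + 2), ∑ w ∈ Cls c (i + 2),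
        e H x y z * mi H z w x = ∑ z ∈ Cls c (i + 2), ∑ w ∈ Cls c (i + 2),
          (∑ y ∈ Cls c i, e H x y z) * mi H z w x := by
        intro x _
        rw [sum_comm]
        refine sum_congr rfl fun z _ => ?_
        rw [sum_comm]
        refine sum_congr rfl fun w _ => ?_
        rw [sum_mul]
      rw [sum_congr rfl a1, sum_comm]
      refine sum_congr rfl fun z _ => ?_
      rw [sum_comm]
    rw [this, mul_sum]
    refine sum_le_sum fun z hz => ?_
    rw [mul_sum]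
    refine sum_le_sum fun w hw => ?_
    rw [mul_sum]
    refine sum_le_sum fun x hx => ?_
    exact mul_le_mul_of_nonneg_right (hk x hx z hz) (mi_nonneg _ _ _)
  have s3 : ∑ x ∈ Cls c i, ∑ y ∈ Cls c i, ∑ z ∈ Cls c (i + 2), ∑ w ∈ Cls c (i + 2),
      e H x y z * mi H z w y ≤ θ * sz c (i + 1) * M2 H c (i + 2) := by
    refine le_trans (le_of_eq ?_) s2
    rw [sum_comm]
    refine sum_congr rfl fun y _ => sum_congr rfl fun x _ => sum_congr rfl fun w _ =>
      sum_congr rfl fun v _ => ?_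
    rw [e_s12 x y w]
  rw [h1]
  linarith

/-- the estimate of the edges with two vertices in a class and one in the class before -/
lemma I4 {θ μ : ℝ} (hθ0 : 0 ≤ θ) (hμ : 0 < μ)
    (hθ : ∀ x z, c x = c z + 1 → ∑ y ∈ Cls c (c x), e H x y z ≤ θ * sz c (c x + 1))
    (i : Fin 3) : (2 * μ - θ) * W2 H c i ≤
      μ ^ 2 * M2 H c i + 2 * θ * M2 H c (i + 2) + 4 * θ * μ * M3 H c i := by
  have h12 : i = i + 2 + 1 := by revert i; decide
  have hk : ∀ x ∈ Cls c i, ∀ z ∈ Cls c (i + 2), ∑ y ∈ Cls c i, e H x y z ≤ θ * sz c (i + 1) := by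
    intro x hx z hz
    have cx : c x = i := (mem_filter.1 hx).2
    have cz : c z = i + 2 := (mem_filter.1 hz).2
    have := hθ x z (by rw [cx, cz]; exact h12)
    rw [cx] at this
    exact this
  have m2 : 0 ≤ M2 H c i := sum_nonneg fun _ _ => sum_nonneg fun _ _ => sum_nonneg fun _ _ =>
    mi_nonneg _ _ _
  have m2' : 0 ≤ M2 H c (i + 2) := sum_nonneg fun _ _ => sum_nonneg fun _ _ =>
    sum_nonneg fun _ _ => mi_nonneg _ _ _
  have m3 : 0 ≤ M3 H c i := sum_nonneg fun _ _ => sum_nonneg fun _ _ => sum_nonneg fun _ _ =>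
    mi_nonneg _ _ _
  have w2 : 0 ≤ W2 H c i := sum_nonneg fun _ _ => sum_nonneg fun _ _ => sum_nonneg fun _ _ =>
    e_nonneg _ _ _
  set s := sz c (i + 1) with hs
  by_cases hsmall : θ * s < 1
  · -- no such edges
    have : W2 H c i = 0 := by
      unfold W2
      refine sum_eq_zero fun x hx => sum_eq_zero fun y hy => sum_eq_zero fun z hz => ?_
      have h1 := hk x hx z hz
      have h2 : e H x y z ≤ ∑ y ∈ Cls c i, e H x y z :=
        single_le_sum (f := fun y => e H x y z) (fun y _ => e_nonneg x y z) hy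
      have h3 : e H x y z < 1 := by linarith
      unfold e at h3 ⊢
      split_ifs at h3 ⊢ with h
      · exact absurd h3 (lt_irrefl _)
      · rfl
    rw [this, mul_zero]
    positivity
  · push Not at hsmall
    have hs0 : 0 ≤ s := sz_nonneg _
    have hs1 : 0 < s := by
      rcases hs0.eq_or_lt with h | h
      · rw [← h, mul_zero] at hsmall; linarith
      · exact h
    have i2 := I2 hF h3 hθ i
    have i3 := I3 hF h3 hθ i
    rw [← hs] at i2 i3
    have hX : 2 * μ * ∑ x ∈ Cls c i, ∑ y ∈ Cls c i, (∑ z ∈ Cls c (i + 2), e H x y z) *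
        (∑ v ∈ Cls c (i + 1), mi H x y v) ≤ μ ^ 2 * (s * M2 H c i) +
        ∑ x ∈ Cls c i, ∑ y ∈ Cls c i, (∑ z ∈ Cls c (i + 2), e H x y z) ^ 2 := by
      have e1 : μ ^ 2 * (s * M2 H c i) +
          ∑ x ∈ Cls c i, ∑ y ∈ Cls c i, (∑ z ∈ Cls c (i + 2), e H x y z) ^ 2 =
          ∑ x ∈ Cls c i, ∑ y ∈ Cls c i, (μ ^ 2 * (s * ∑ v ∈ Cls c (i + 1), mi H x y v) +
            (∑ z ∈ Cls c (i + 2), e H x y z) ^ 2) := by
        simp only [sum_add_distrib]
        congr 1
        unfold M2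
        simp only [mul_sum]
      rw [e1, mul_sum]
      refine sum_le_sum fun x hx => ?_
      rw [mul_sum]
      refine sum_le_sum fun y hy => ?_
      set a := ∑ z ∈ Cls c (i + 2), e H x y z
      set b := ∑ v ∈ Cls c (i + 1), mi H x y v with hb
      have hb0 : 0 ≤ b := sum_nonneg fun v _ => mi_nonneg _ _ _
      have hbs : b ≤ s := by
        rw [hb, hs]
        unfold sz
        have : ∑ v ∈ Cls c (i + 1), mi H x y v ≤ ∑ v ∈ Cls c (i + 1), (1 : ℝ) :=
          sum_le_sum fun v _ => mi_le _ _ _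
        simpa using this
      have h1 : b ^ 2 ≤ s * b := by nlinarith
      nlinarith [sq_nonneg (a - μ * b), mul_le_mul_of_nonneg_left h1 (sq_nonneg μ)]
    have hd : W2 H c i ≤ θ * s * W2 H c i := by nlinarith
    have hfin : s * ((2 * μ - θ) * W2 H c i) ≤
        s * (μ ^ 2 * M2 H c i + 2 * θ * M2 H c (i + 2) + 4 * θ * μ * M3 H c i) := by
      nlinarith
    exact le_of_mul_le_mul_left hfin hs1

end Pool.Agent.X59.LF
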