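import Pool.Agent.X59.LF.A

/-! Turán's construction and the numbers of edges and missing triples. -/

set_option autoImplicit false
open Finset
open scoped Classical

namespace Pool.Agent.X59.LF

open Pool.Agent.X59.OC

/-- Turán's construction for the division of the vertices into the classes `c = 0, 1, 2`. -/
noncomputable def turan {n : ℕ} (c : Fin n → Fin 3) : Finset (Finset (Fin n)) :=
  ((univ : Finset (Fin n)).powersetCard 3).filter fun t =>
    (∀ j, ∃ x ∈ t, c x = j) ∨
      ∃ i, (t.filter fun x => c x = i).card = 2 ∧ (t.filter fun x => c x = i + 1).card = 1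

variable {n : ℕ} {H : Finset (Finset (Fin n))} {c : Fin n → Fin 3}

/-- the type of the triples of Turán's construction -/
def ty (p q r : Fin 3) : Bool :=
  (p != q && p != r && q != r) || (p == q && r == p + 1) || (p == r && q == p + 1) ||
    (q == r && p == q + 1)

lemma filt_card {x y z : Fin n} (hxy : x ≠ y) (hxz : x ≠ z) (hyz : y ≠ z) (i : Fin 3) :
    (({x, y, z} : Finset (Fin n)).filter fun x => c x = i).card =
      (if c x = i then 1 else 0) + ((if c y = i then 1 else 0) + (if c z = i then 1 else 0)) := by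
  rw [card_filter, sum_insert, sum_insert, sum_singleton]
  · simp [hyz]
  · simp [hxy, hxz]

lemma mem_turan {x y z : Fin n} (hxy : x ≠ y) (hxz : x ≠ z) (hyz : y ≠ z) :
    ({x, y, z} : Finset (Fin n)) ∈ turan c ↔ ty (c x) (c y) (c z) = true := by
  unfold turan
  rw [mem_filter, mem_powersetCard_univ]
  have h3 : ({x, y, z} : Finset (Fin n)).card = 3 := card_eq_three.2 ⟨x, y, z, hxy, hxz, hyz, rfl⟩
  simp only [h3, true_and, filt_card hxy hxz hyz]
  have h : ∀ p q r : Fin 3, ((∀ j, p = j ∨ q = j ∨ r = j) ∨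
      ∃ i, (if p = i then 1 else 0) + ((if q = i then 1 else 0) + (if r = i then 1 else 0)) = 2 ∧
        (if p = i + 1 then 1 else 0) + ((if q = i + 1 then 1 else 0) +
          (if r = i + 1 then 1 else 0)) = 1) ↔ ty p q r = true := by
    unfold ty
    decide
  rw [← h]
  simp only [mem_insert, mem_singleton, exists_eq_or_imp, exists_eq_left]

lemma turan_card3 {t : Finset (Fin n)} (ht : t ∈ turan c) : t.card = 3 := by
  unfold turan at ht
  rw [mem_filter, mem_powersetCard_univ] at ht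
  exact ht.1

/-- sums over all ordered triples of vertices, split by the classes -/
lemma split3 (F : Fin n → Fin n → Fin n → ℝ) : ∑ x, ∑ y, ∑ z, F x y z =
    ∑ p, ∑ q, ∑ r, ∑ x ∈ Cls c p, ∑ y ∈ Cls c q, ∑ z ∈ Cls c r, F x y z := by
  have h : ∀ G : Fin n → ℝ, ∑ x, G x = ∑ p, ∑ x ∈ Cls c p, G x := by
    intro G
    rw [cls_sum (fun _ x => G x)]
  have h1 : ∀ x, ∑ y, ∑ z, F x y z = ∑ q, ∑ r, ∑ y ∈ Cls c q, ∑ z ∈ Cls c r, F x y z := by
    intro x
    refine (h _).trans (sum_congr rfl fun q _ => ?_)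
    refine Eq.trans ?_ sum_comm
    exact sum_congr rfl fun y _ => h _
  refine (h _).trans (sum_congr rfl fun p _ => ?_)
  have h2 : ∑ x ∈ Cls c p, ∑ y, ∑ z, F x y z =
      ∑ x ∈ Cls c p, ∑ q, ∑ r, ∑ y ∈ Cls c q, ∑ z ∈ Cls c r, F x y z :=
    sum_congr rfl fun x _ => h1 x
  rw [h2, sum_comm]
  refine sum_congr rfl fun q _ => ?_
  rw [sum_comm]

/-- the edges outside Turán's construction -/
lemma card_out (h3 : ∀ s ∈ H, s.card = 3) :
    6 * ((H \ turan c).card : ℝ) = ∑ i, (W1 H c i + 3 * W2 H c i) := by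
  rw [← six_card (fun s hs => h3 s (mem_sdiff.1 hs).1), split3 (c := c)]
  have key : ∀ p q r : Fin 3, ∑ x ∈ Cls c p, ∑ y ∈ Cls c q, ∑ z ∈ Cls c r,
      (if ({x, y, z} : Finset (Fin n)) ∈ H \ turan c then (1 : ℝ) else 0) =
      if ty p q r = true then 0 else
        ∑ x ∈ Cls c p, ∑ y ∈ Cls c q, ∑ z ∈ Cls c r, e H x y z := by
    intro p q r
    by_cases ht : ty p q r = true
    · rw [if_pos ht]
      refine sum_eq_zero fun x hx => sum_eq_zero fun y hy => sum_eq_zero fun z hz => ?_
      rw [if_neg]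
      intro h
      rw [mem_sdiff] at h
      obtain ⟨n1, n2, n3⟩ := ne_of_card3 (h3 _ h.1)
      apply h.2
      rw [mem_turan n1 n2 n3, (mem_filter.1 hx).2, (mem_filter.1 hy).2, (mem_filter.1 hz).2]
      exact ht
    · rw [if_neg ht]
      refine sum_congr rfl fun x hx => sum_congr rfl fun y hy => sum_congr rfl fun z hz => ?_
      unfold e
      congr 1
      apply propext
      rw [mem_sdiff]
      constructor
      · exact fun h => h.1
      · intro h
        obtain ⟨n1, n2, n3⟩ := ne_of_card3 (h3 _ h)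
        refine ⟨h, fun h' => ht ?_⟩
        rw [mem_turan n1 n2 n3, (mem_filter.1 hx).2, (mem_filter.1 hy).2, (mem_filter.1 hz).2] at h'
        exact h'
  simp only [key]
  have sw1 : ∀ p q r : Fin 3, ∑ x ∈ Cls c p, ∑ y ∈ Cls c q, ∑ z ∈ Cls c r, e H x y z =
      ∑ x ∈ Cls c q, ∑ y ∈ Cls c p, ∑ z ∈ Cls c r, e H x y z := by
    intro p q r
    rw [sum_comm]
    refine sum_congr rfl fun x _ => sum_congr rfl fun y _ => sum_congr rfl fun z _ => ?_
    exact e_s12 _ _ _
  have sw2 : ∀ p q r : Fin 3, ∑ x ∈ Cls c p, ∑ y ∈ Cls c q, ∑ z ∈ Cls c r, e H x y z =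
      ∑ x ∈ Cls c p, ∑ y ∈ Cls c r, ∑ z ∈ Cls c q, e H x y z := by
    intro p q r
    refine sum_congr rfl fun x _ => ?_
    rw [sum_comm]
    refine sum_congr rfl fun y _ => sum_congr rfl fun z _ => ?_
    exact e_s23 _ _ _
  have hZ : ∃ Z : Fin 3 → Fin 3 → Fin 3 → ℝ, (∀ p q r, Z p q r =
      ∑ x ∈ Cls c p, ∑ y ∈ Cls c q, ∑ z ∈ Cls c r, e H x y z) := ⟨_, fun _ _ _ => rfl⟩
  obtain ⟨Z, hZ⟩ := hZ
  have z1 : ∀ p q r, Z p q r = Z q p r := by intro p q r; rw [hZ, hZ]; exact sw1 p q r
  have z2 : ∀ p q r, Z p q r = Z p r q := by intro p q r; rw [hZ, hZ]; exact sw2 p q r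
  unfold W1 W2
  simp only [← hZ]
  simp only [Fin.sum_univ_three, Fin.isValue]
  have t1 : (0 : Fin 3) + 2 = 2 := rfl
  have t2 : (1 : Fin 3) + 2 = 0 := rfl
  have t3 : (2 : Fin 3) + 2 = 1 := rfl
  rw [t1, t2, t3]
  have y0 := z1 0 2 0
  have y1 := z2 0 0 2
  have y2 := z1 1 0 1
  have y3 := z2 1 1 0
  have y4 := z1 2 1 2
  have y5 := z2 2 2 1
  simp only [show ty 0 0 0 = false from rfl, show ty 0 0 1 = true from rfl,
    show ty 0 0 2 = false from rfl, show ty 0 1 0 = true from rfl, show ty 0 1 1 = false from rfl,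
    show ty 0 1 2 = true from rfl, show ty 0 2 0 = false from rfl, show ty 0 2 1 = true from rfl,
    show ty 0 2 2 = true from rfl, show ty 1 0 0 = true from rfl, show ty 1 0 1 = false from rfl,
    show ty 1 0 2 = true from rfl, show ty 1 1 0 = false from rfl, show ty 1 1 1 = false from rfl,
    show ty 1 1 2 = true from rfl, show ty 1 2 0 = true from rfl, show ty 1 2 1 = true from rfl,
    show ty 1 2 2 = false from rfl, show ty 2 0 0 = false from rfl, show ty 2 0 1 = true from rfl,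
    show ty 2 0 2 = true from rfl, show ty 2 1 0 = true from rfl, show ty 2 1 1 = true from rfl,
    show ty 2 1 2 = false from rfl, show ty 2 2 0 = true from rfl, show ty 2 2 1 = false from rfl,
    show ty 2 2 2 = false from rfl, if_true, Bool.false_eq_true, if_false]
  linarith

/-- the missing triples of Turán's construction -/
lemma card_miss :
    6 * ((turan c \ H).card : ℝ) = ∑ i, (3 * M2 H c i + 2 * M3 H c i) := by
  rw [← six_card (fun s hs => turan_card3 (mem_sdiff.1 hs).1), split3 (c := c)]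
  have key : ∀ p q r : Fin 3, ∑ x ∈ Cls c p, ∑ y ∈ Cls c q, ∑ z ∈ Cls c r,
      (if ({x, y, z} : Finset (Fin n)) ∈ turan c \ H then (1 : ℝ) else 0) =
      if ty p q r = true then ∑ x ∈ Cls c p, ∑ y ∈ Cls c q, ∑ z ∈ Cls c r, mi H x y z
        else 0 := by
    intro p q r
    by_cases ht : ty p q r = true
    · rw [if_pos ht]
      refine sum_congr rfl fun x hx => sum_congr rfl fun y hy => sum_congr rfl fun z hz => ?_
      unfold mi Mi
      congr 1
      apply propext
      rw [mem_sdiff]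
      constructor
      · rintro ⟨h, h'⟩
        obtain ⟨n1, n2, n3⟩ := ne_of_card3 (turan_card3 h)
        exact ⟨n1, n2, n3, h'⟩
      · rintro ⟨n1, n2, n3, h⟩
        refine ⟨?_, h⟩
        rw [mem_turan n1 n2 n3, (mem_filter.1 hx).2, (mem_filter.1 hy).2, (mem_filter.1 hz).2]
        exact ht
    · rw [if_neg ht]
      refine sum_eq_zero fun x hx => sum_eq_zero fun y hy => sum_eq_zero fun z hz => ?_
      rw [if_neg]
      intro h
      rw [mem_sdiff] at h
      obtain ⟨n1, n2, n3⟩ := ne_of_card3 (turan_card3 h.1)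
      have h' := h.1
      rw [mem_turan n1 n2 n3, (mem_filter.1 hx).2, (mem_filter.1 hy).2, (mem_filter.1 hz).2] at h'
      exact ht h'
  simp only [key]
  have sw1 : ∀ p q r : Fin 3, ∑ x ∈ Cls c p, ∑ y ∈ Cls c q, ∑ z ∈ Cls c r, mi H x y z =
      ∑ x ∈ Cls c q, ∑ y ∈ Cls c p, ∑ z ∈ Cls c r, mi H x y z := by
    intro p q r
    rw [sum_comm]
    refine sum_congr rfl fun x _ => sum_congr rfl fun y _ => sum_congr rfl fun z _ => ?_
    exact mi_s12 _ _ _
  have sw2 : ∀ p q r : Fin 3, ∑ x ∈ Cls c p, ∑ y ∈ Cls c q, ∑ z ∈ Cls c r, mi H x y z =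
      ∑ x ∈ Cls c p, ∑ y ∈ Cls c r, ∑ z ∈ Cls c q, mi H x y z := by
    intro p q r
    refine sum_congr rfl fun x _ => ?_
    rw [sum_comm]
    refine sum_congr rfl fun y _ => sum_congr rfl fun z _ => ?_
    exact mi_s23 _ _ _
  have hZ : ∃ Z : Fin 3 → Fin 3 → Fin 3 → ℝ, (∀ p q r, Z p q r =
      ∑ x ∈ Cls c p, ∑ y ∈ Cls c q, ∑ z ∈ Cls c r, mi H x y z) := ⟨_, fun _ _ _ => rfl⟩
  obtain ⟨Z, hZ⟩ := hZ
  have z1 : ∀ p q r, Z p q r = Z q p r := by intro p q r; rw [hZ, hZ]; exact sw1 p q r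
  have z2 : ∀ p q r, Z p q r = Z p r q := by intro p q r; rw [hZ, hZ]; exact sw2 p q r
  unfold M2 M3
  simp only [← hZ]
  simp only [Fin.sum_univ_three, Fin.isValue]
  have t1 : (0 : Fin 3) + 2 = 2 := rfl
  have t2 : (1 : Fin 3) + 2 = 0 := rfl
  have t3 : (2 : Fin 3) + 2 = 1 := rfl
  have t4 : (0 : Fin 3) + 1 = 1 := rfl
  have t5 : (1 : Fin 3) + 1 = 2 := rfl
  have t6 : (2 : Fin 3) + 1 = 0 := rfl
  rw [t1, t2, t3, t4, t5, t6]
  have y0 := z1 0 1 0
  have y1 := z2 0 0 1
  have y2 := z1 1 2 1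
  have y3 := z2 1 1 2
  have y4 := z1 2 0 2
  have y5 := z2 2 2 0
  have x0 := z1 0 1 2
  have x1 := z2 0 1 2
  have x2 := z1 0 2 1
  have x3 := z2 1 0 2
  have x4 := z2 2 0 1
  simp only [show ty 0 0 0 = false from rfl, show ty 0 0 1 = true from rfl,
    show ty 0 0 2 = false from rfl, show ty 0 1 0 = true from rfl, show ty 0 1 1 = false from rfl,
    show ty 0 1 2 = true from rfl, show ty 0 2 0 = false from rfl, show ty 0 2 1 = true from rfl,
    show ty 0 2 2 = true from rfl, show ty 1 0 0 = true from rfl, show ty 1 0 1 = false from rfl,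
    show ty 1 0 2 = true from rfl, show ty 1 1 0 = false from rfl, show ty 1 1 1 = false from rfl,
    show ty 1 1 2 = true from rfl, show ty 1 2 0 = true from rfl, show ty 1 2 1 = true from rfl,
    show ty 1 2 2 = false from rfl, show ty 2 0 0 = false from rfl, show ty 2 0 1 = true from rfl,
    show ty 2 0 2 = true from rfl, show ty 2 1 0 = true from rfl, show ty 2 1 1 = true from rfl,
    show ty 2 1 2 = false from rfl, show ty 2 2 0 = true from rfl, show ty 2 2 1 = false from rfl,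
    show ty 2 2 2 = false from rfl, if_true, Bool.false_eq_true, if_false]
  linarith

/-- the number of triples of Turán's construction -/
lemma six_turan : 6 * ((turan c).card : ℝ) =
    3 * ((sz c 0 ^ 2 - sz c 0) * sz c 1 + (sz c 1 ^ 2 - sz c 1) * sz c 2 +
      (sz c 2 ^ 2 - sz c 2) * sz c 0) + 6 * (sz c 0 * sz c 1 * sz c 2) := by
  have h := card_miss (H := (∅ : Finset (Finset (Fin n)))) (c := c)
  rw [sdiff_empty] at h
  have hm : ∀ i j k : Fin 3, j ≠ i → k ≠ i → k ≠ j →
      ∑ x ∈ Cls c i, ∑ v ∈ Cls c j, ∑ z ∈ Cls c k, mi (∅ : Finset (Finset (Fin n))) x v z =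
      sz c i * sz c j * sz c k := by
    intro i j k hj hk hkj
    have : ∀ x ∈ Cls c i, ∀ y ∈ Cls c j, ∀ z ∈ Cls c k,
        mi (∅ : Finset (Finset (Fin n))) x y z = 1 := by
      intro x hx y hy z hz
      have cx : c x = i := (mem_filter.1 hx).2
      have cy : c y = j := (mem_filter.1 hy).2
      have cz : c z = k := (mem_filter.1 hz).2
      unfold mi
      rw [if_pos]
      refine ⟨?_, ?_, ?_, notMem_empty _⟩
      · rintro rfl; exact hj (cy.symm.trans cx)
      · rintro rfl; exact hk (cz.symm.trans cx)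
      · rintro rfl; exact hkj (cz.symm.trans cy)
    rw [sum_congr rfl fun x hx => sum_congr rfl fun y hy => sum_congr rfl fun z hz =>
      this x hx y hy z hz]
    simp only [sum_const, nsmul_eq_mul, mul_one]
    unfold sz
    ring
  have hm2 : ∀ i j : Fin 3, j ≠ i →
      ∑ x ∈ Cls c i, ∑ y ∈ Cls c i, ∑ v ∈ Cls c j, mi (∅ : Finset (Finset (Fin n))) x y v =
      (sz c i ^ 2 - sz c i) * sz c j := by
    intro i j hj
    have : ∀ x ∈ Cls c i, ∀ y ∈ Cls c i, ∀ v ∈ Cls c j,
        mi (∅ : Finset (Finset (Fin n))) x y v = 1 - (if x = y then 1 else 0) := by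
      intro x hx y hy v hv
      have cx : c x = i := (mem_filter.1 hx).2
      have cy : c y = i := (mem_filter.1 hy).2
      have cv : c v = j := (mem_filter.1 hv).2
      by_cases hxy : x = y
      · rw [if_pos hxy]
        unfold mi
        rw [if_neg]
        · norm_num
        · exact fun h => h.1 hxy
      · rw [if_neg hxy]
        unfold mi
        rw [if_pos]
        · norm_num
        · refine ⟨hxy, ?_, ?_, notMem_empty _⟩
          · rintro rfl; exact hj (cv.symm.trans cx)
          · rintro rfl; exact hj (cv.symm.trans cy)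
    rw [sum_congr rfl fun x hx => sum_congr rfl fun y hy => sum_congr rfl fun z hz =>
      this x hx y hy z hz]
    simp only [sum_const, nsmul_eq_mul]
    have e2 : ∑ x ∈ Cls c i, ∑ y ∈ Cls c i, ((Cls c j).card : ℝ) * (1 - (if x = y then 1 else 0)) =
        ∑ x ∈ Cls c i, (sz c j * sz c i - sz c j) := by
      refine sum_congr rfl fun x hx => ?_
      rw [← mul_sum, sum_sub_distrib, sum_ite_eq, if_pos hx]
      simp only [sum_const, nsmul_eq_mul, mul_one]
      unfold sz
      ring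
    rw [e2]
    simp only [sum_const, nsmul_eq_mul]
    unfold sz
    ring
  unfold M2 M3 at h
  rw [h]
  simp only [Fin.sum_univ_three, Fin.isValue]
  have t1 : (0 : Fin 3) + 2 = 2 := rfl
  have t2 : (1 : Fin 3) + 2 = 0 := rfl
  have t3 : (2 : Fin 3) + 2 = 1 := rfl
  have t4 : (0 : Fin 3) + 1 = 1 := rfl
  have t5 : (1 : Fin 3) + 1 = 2 := rfl
  have t6 : (2 : Fin 3) + 1 = 0 := rfl
  rw [t1, t2, t3, t4, t5, t6]
  rw [hm2 0 1 (by decide), hm2 1 2 (by decide), hm2 2 0 (by decide),
    hm 0 1 2 (by decide) (by decide) (by decide), hm 1 2 0 (by decide) (by decide) (by decide),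
    hm 2 0 1 (by decide) (by decide) (by decide)]
  ring

end Pool.Agent.X59.LF
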