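import Pool.Agent.X59.LF.B

/-! The comparison with Turán's construction and Turán's number. -/

set_option autoImplicit false
open Finset
open scoped Classical

namespace Pool.Agent.X59.LF

open Pool.Agent.X59.OC

variable {n : ℕ} {H : Finset (Finset (Fin n))} {c : Fin n → Fin 3}

lemma M2_nonneg (i : Fin 3) : 0 ≤ M2 H c i := sum_nonneg fun _ _ => sum_nonneg fun _ _ =>
  sum_nonneg fun _ _ => mi_nonneg _ _ _
lemma M3_nonneg (i : Fin 3) : 0 ≤ M3 H c i := sum_nonneg fun _ _ => sum_nonneg fun _ _ =>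
  sum_nonneg fun _ _ => mi_nonneg _ _ _

theorem master (hF : ∀ S : Finset (Fin n), S.card = 4 → ∃ t ⊆ S, t.card = 3 ∧ t ∉ H)
    (h3 : ∀ s ∈ H, s.card = 3) {κ θ μ ρ : ℝ} (hκ0 : 0 ≤ κ) (hθ0 : 0 ≤ θ) (hμ : θ < 2 * μ)
    (hρ1 : κ * (2 * μ - θ) + μ ^ 2 + 2 * θ ≤ ρ * (2 * μ - θ))
    (hρ2 : 6 * θ * μ ≤ ρ * (2 * μ - θ))
    (hκ : ∀ x y, c x = c y → ∑ w ∈ Cls c (c x), e H x y w ≤ κ * sz c (c x + 1))
    (hθ : ∀ x z, c x = c z + 1 → ∑ y ∈ Cls c (c x), e H x y z ≤ θ * sz c (c x + 1)) :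
    ((H \ turan c).card : ℝ) ≤ ρ * ((turan c \ H).card : ℝ) := by
  have hμ0 : 0 < μ := by linarith
  have hD : 0 < 2 * μ - θ := by linarith
  have hw1 : ∀ i, W1 H c i ≤ 3 * κ * M2 H c i := by
    intro i
    have h := I1 hF h3 hκ i
    rcases (sz_nonneg (c := c) (i + 1)).eq_or_lt with h0 | h0
    · have : W1 H c i ≤ 0 := by
        unfold W1
        refine sum_nonpos fun x hx => sum_nonpos fun y hy => ?_
        have cx : c x = i := (mem_filter.1 hx).2
        have cy : c y = i := (mem_filter.1 hy).2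
        have := hκ x y (cx.trans cy.symm)
        rw [cx, ← h0, mul_zero] at this
        exact this
      have := mul_nonneg hκ0 (M2_nonneg (H := H) (c := c) i)
      linarith
    · have : sz c (i + 1) * W1 H c i ≤ sz c (i + 1) * (3 * κ * M2 H c i) := by
        refine h.trans (le_of_eq (by ring))
      exact le_of_mul_le_mul_left this h0
  have hw2 := fun i => I4 hF h3 hθ0 hμ0 hθ i
  have c1 := card_out (c := c) h3
  have c2 := card_miss (H := H) (c := c)
  simp only [Fin.sum_univ_three, Fin.isValue] at c1 c2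
  have t1 : (0 : Fin 3) + 2 = 2 := rfl
  have t2 : (1 : Fin 3) + 2 = 0 := rfl
  have t3 : (2 : Fin 3) + 2 = 1 := rfl
  have a0 := hw2 0
  have a1 := hw2 1
  have a2 := hw2 2
  rw [t1] at a0
  rw [t2] at a1
  rw [t3] at a2
  have b0 := mul_le_mul_of_nonneg_left (hw1 0) hD.le
  have b1 := mul_le_mul_of_nonneg_left (hw1 1) hD.le
  have b2 := mul_le_mul_of_nonneg_left (hw1 2) hD.le
  have d0 := mul_le_mul_of_nonneg_right hρ1 (M2_nonneg (H := H) (c := c) 0)
  have d1 := mul_le_mul_of_nonneg_right hρ1 (M2_nonneg (H := H) (c := c) 1)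
  have d2 := mul_le_mul_of_nonneg_right hρ1 (M2_nonneg (H := H) (c := c) 2)
  have f0 := mul_le_mul_of_nonneg_right hρ2 (M3_nonneg (H := H) (c := c) 0)
  have f1 := mul_le_mul_of_nonneg_right hρ2 (M3_nonneg (H := H) (c := c) 1)
  have f2 := mul_le_mul_of_nonneg_right hρ2 (M3_nonneg (H := H) (c := c) 2)
  have hfin : (2 * μ - θ) * (6 * ((H \ turan c).card : ℝ)) ≤
      (2 * μ - θ) * (ρ * (6 * ((turan c \ H).card : ℝ))) := by
    rw [c1, c2]
    linarith
  have := le_of_mul_le_mul_left hfin hD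
  linarith

lemma card_eq (H T : Finset (Finset (Fin n))) :
    (H.card : ℝ) + ((T \ H).card : ℝ) = (T.card : ℝ) + (H \ T).card := by
  have h1 := card_sdiff_add_card_inter H T
  have h2 := card_sdiff_add_card_inter T H
  rw [inter_comm] at h2
  have h1' : (((H \ T).card : ℕ) : ℝ) + (H ∩ T).card = H.card := by exact_mod_cast h1
  have h2' : (((T \ H).card : ℕ) : ℝ) + (H ∩ T).card = T.card := by exact_mod_cast h2
  linarith

/-- number of edges of Turán's construction with balanced classes -/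
def tnum (n : ℕ) : ℕ :=
  n / 3 * ((n + 1) / 3) * ((n + 2) / 3) + (n / 3).choose 2 * ((n + 1) / 3) +
    ((n + 1) / 3).choose 2 * ((n + 2) / 3) + ((n + 2) / 3).choose 2 * (n / 3)

/-- twice the number of edges of Turán's construction -/
def P (a b d : ℝ) : ℝ := 2 * a * b * d + (a ^ 2 - a) * b + (b ^ 2 - b) * d + (d ^ 2 - d) * a

lemma G_min {a b d : ℝ} (ha : 0 ≤ a) (hab : a ≤ b) (had : a ≤ d) :
    0 ≤ 13 * (a ^ 3 + b ^ 3 + d ^ 3) - 60 * (a ^ 2 * b + b ^ 2 * d + d ^ 2 * a) +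
      75 * (a * b ^ 2 + b * d ^ 2 + d * a ^ 2) - 84 * (a * b * d) := by
  obtain ⟨u, hu⟩ : ∃ u, u = b - a := ⟨_, rfl⟩
  obtain ⟨v, hv⟩ : ∃ v, v = d - a := ⟨_, rfl⟩
  have hb : b = a + u := by linarith
  have hd : d = a + v := by linarith
  have hu0 : 0 ≤ u := by linarith
  have hv0 : 0 ≤ v := by linarith
  subst hb hd
  have e1 : 13 * (a ^ 3 + (a + u) ^ 3 + (a + v) ^ 3) - 60 * (a ^ 2 * (a + u) +
      (a + u) ^ 2 * (a + v) + (a + v) ^ 2 * a) + 75 * (a * (a + u) ^ 2 + (a + u) * (a + v) ^ 2 +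
      (a + v) * a ^ 2) - 84 * (a * (a + u) * (a + v)) =
      54 * a * (u ^ 2 - u * v + v ^ 2) + u * (13 * u ^ 2 - 60 * (u * v) + 75 * v ^ 2) +
        13 * v ^ 3 := by ring
  rw [e1]
  have h1 : 0 ≤ u ^ 2 - u * v + v ^ 2 := by nlinarith [sq_nonneg (u - v), sq_nonneg (u + v)]
  have h2 : 0 ≤ 13 * u ^ 2 - 60 * (u * v) + 75 * v ^ 2 := by
    nlinarith [sq_nonneg (13 * u - 30 * v), sq_nonneg v]
  positivity

lemma G_nonneg {a b d : ℝ} (ha : 0 ≤ a) (hb : 0 ≤ b) (hd : 0 ≤ d) :
    0 ≤ 13 * (a ^ 3 + b ^ 3 + d ^ 3) - 60 * (a ^ 2 * b + b ^ 2 * d + d ^ 2 * a) +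
      75 * (a * b ^ 2 + b * d ^ 2 + d * a ^ 2) - 84 * (a * b * d) := by
  rcases le_total a b with h1 | h1 <;> rcases le_total b d with h2 | h2 <;>
    rcases le_total a d with h3 | h3
  · exact G_min ha h1 h3
  · have := G_min ha h1 (h1.trans h2); linarith
  · exact G_min ha h1 h3
  · have := G_min hd h3 h2; linarith
  · have := G_min hb h2 h1; linarith
  · have := G_min hb h2 h1; linarith
  · have := G_min hd (h2.trans h1) h2; linarith
  · have := G_min hd h3 h2; linarith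

/-- the bound in terms of the sum of the squares -/
lemma P_le {a b d : ℝ} (ha : 0 ≤ a) (hb : 0 ≤ b) (hd : 0 ≤ d) {n : ℝ} (hn : n = a + b + d) :
    270 * P a b d ≤ 62 * n ^ 3 - 36 * n * (a ^ 2 + b ^ 2 + d ^ 2) -
      135 * (n ^ 2 - (a ^ 2 + b ^ 2 + d ^ 2)) := by
  have := G_nonneg ha hb hd
  subst hn
  unfold P
  nlinarith

lemma P_le_tnum (a b d : ℕ) : P a b d ≤ 2 * (tnum (a + b + d) : ℝ) := by
  obtain ⟨n, hn⟩ : ∃ n, n = a + b + d := ⟨_, rfl⟩
  rw [← hn]
  rcases Nat.lt_or_ge n 8 with h8 | h8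
  · have hall : ∀ a < 8, ∀ b < 8, ∀ d < 8, a + b + d < 8 →
        2 * a * b * d + a * (a - 1) * b + b * (b - 1) * d + d * (d - 1) * a ≤
          2 * tnum (a + b + d) := by
      unfold tnum
      decide
    have h := hall a (by omega) b (by omega) d (by omega) (by omega)
    rw [← hn] at h
    have hc : ∀ m : ℕ, ((m * (m - 1) : ℕ) : ℝ) = (m : ℝ) ^ 2 - m := by
      intro m
      rcases m with _ | m
      · simp
      · push_cast [Nat.add_sub_cancel]; ring
    have h' : ((2 * a * b * d + a * (a - 1) * b + b * (b - 1) * d + d * (d - 1) * a : ℕ) : ℝ) ≤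
        ((2 * tnum n : ℕ) : ℝ) := by exact_mod_cast h
    rw [Nat.cast_add, Nat.cast_add, Nat.cast_add, Nat.cast_mul (a * (a - 1)) b,
      Nat.cast_mul (b * (b - 1)) d, Nat.cast_mul (d * (d - 1)) a, hc a, hc b, hc d] at h'
    unfold P
    rw [Nat.cast_mul 2 (tnum n)] at h'
    push_cast at h' ⊢
    linarith
  · -- large `n`
    have hR : (n : ℝ) = a + b + d := by exact_mod_cast hn
    have h := P_le (Nat.cast_nonneg a) (Nat.cast_nonneg b) (Nat.cast_nonneg d) hR
    have h8' : (8 : ℝ) ≤ n := by exact_mod_cast h8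
    set S : ℝ := (a : ℝ) ^ 2 + (b : ℝ) ^ 2 + (d : ℝ) ^ 2 with hS
    obtain ⟨k, hk⟩ : ∃ k, k = n / 3 := ⟨_, rfl⟩
    obtain ⟨x, hx⟩ : ∃ x : ℤ, x = a - k := ⟨_, rfl⟩
    obtain ⟨y, hy⟩ : ∃ y : ℤ, y = b - k := ⟨_, rfl⟩
    obtain ⟨z, hz⟩ : ∃ z : ℤ, z = d - k := ⟨_, rfl⟩
    have ax : (a : ℝ) = k + x := by rw [hx]; push_cast; ring
    have bx : (b : ℝ) = k + y := by rw [hy]; push_cast; ring
    have dx : (d : ℝ) = k + z := by rw [hz]; push_cast; ring
    have hr : n % 3 = 0 ∨ n % 3 = 1 ∨ n % 3 = 2 := by omega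
    have hnk : n = 3 * k + n % 3 := by omega
    have hsum : x + y + z = (n % 3 : ℕ) := by
      rw [hx, hy, hz]; omega
    have hcoef : 0 ≤ 36 * (n : ℝ) - 135 := by linarith
    rcases hr with hr | hr | hr
    · -- remainder 0
      rw [hr] at hnk hsum
      have ht : 2 * (tnum n : ℝ) = 5 * (k : ℝ) ^ 3 - 3 * (k : ℝ) ^ 2 := by
        unfold tnum
        have e1 : n / 3 = k := hk.symm
        have e2 : (n + 1) / 3 = k := by omega
        have e3 : (n + 2) / 3 = k := by omega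
        rw [e1, e2, e3]
        push_cast [Nat.cast_choose_two]
        ring
      have hnk' : (n : ℝ) = 3 * k := by exact_mod_cast hnk
      have hS3 : 3 * S ≥ (n : ℝ) ^ 2 := by
        rw [hR, hS]
        nlinarith [sq_nonneg ((a : ℝ) - b), sq_nonneg ((b : ℝ) - d), sq_nonneg ((a : ℝ) - d)]
      rw [ht]
      have := mul_le_mul_of_nonneg_left hS3 hcoef
      rw [hnk'] at h this
      nlinarith
    · -- remainder 1
      rw [hr] at hnk hsum
      have ht : 2 * (tnum n : ℝ) = 2 * k ^ 2 * (k + 1) + k * (k - 1) * (2 * k + 1) + k ^ 2 * (k + 1) := by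
        unfold tnum
        have e1 : n / 3 = k := hk.symm
        have e2 : (n + 1) / 3 = k := by omega
        have e3 : (n + 2) / 3 = k + 1 := by omega
        rw [e1, e2, e3]
        push_cast [Nat.cast_choose_two]
        ring
      have hnk' : (n : ℝ) = 3 * k + 1 := by exact_mod_cast hnk
      by_cases hb : (x = 0 ∨ x = 1) ∧ (y = 0 ∨ y = 1) ∧ (z = 0 ∨ z = 1)
      · rw [ht, ax, bx, dx]
        obtain ⟨h1, h2, h3⟩ := hb
        unfold P
        rcases h1 with h1 | h1 <;> rcases h2 with h2 | h2 <;> rcases h3 with h3 | h3 <;>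
          rw [h1, h2, h3] at hsum ⊢ <;> first | (exfalso; revert hsum; norm_num; done) |
            (push_cast; apply le_of_eq; ring)
      · have hq : (3 : ℤ) ≤ x ^ 2 + y ^ 2 + z ^ 2 := by
          by_contra hcon
          push Not at hcon
          apply hb
          have b1 : -1 ≤ x ∧ x ≤ 1 := by constructor <;> nlinarith [sq_nonneg y, sq_nonneg z]
          have b2 : -1 ≤ y ∧ y ≤ 1 := by constructor <;> nlinarith [sq_nonneg x, sq_nonneg z]
          have b3 : -1 ≤ z ∧ z ≤ 1 := by constructor <;> nlinarith [sq_nonneg x, sq_nonneg y]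
          obtain ⟨b1, b1'⟩ := b1
          obtain ⟨b2, b2'⟩ := b2
          obtain ⟨b3, b3'⟩ := b3
          clear hb ax bx dx hx hy hz
          interval_cases x <;> interval_cases y <;> interval_cases z <;>
            first | (exfalso; revert hsum; norm_num; done) |
              (exfalso; revert hcon; norm_num; done) | norm_num
        have hq' : (3 : ℝ) ≤ (x : ℝ) ^ 2 + (y : ℝ) ^ 2 + (z : ℝ) ^ 2 := by exact_mod_cast hq
        have hsum' : (x : ℝ) + y + z = 1 := by exact_mod_cast hsum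
        have hSe : S = 3 * (k : ℝ) ^ 2 + 2 * k + ((x : ℝ) ^ 2 + (y : ℝ) ^ 2 + (z : ℝ) ^ 2) := by
          rw [hS, ax, bx, dx]
          linear_combination (2 * (k : ℝ)) * hsum'
        have hS3 : 3 * (k : ℝ) ^ 2 + 2 * k + 3 ≤ S := by linarith
        have := mul_le_mul_of_nonneg_left hS3 hcoef
        have hk2 : (7 : ℝ) ≤ 3 * k := by linarith
        rw [ht]
        rw [hnk'] at h this
        nlinarith
    · -- remainder 2
      rw [hr] at hnk hsum
      have ht : 2 * (tnum n : ℝ) = 2 * k * (k + 1) ^ 2 + k * (k - 1) * (k + 1) + k * (k + 1) * (2 * k + 1) := by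
        unfold tnum
        have e1 : n / 3 = k := hk.symm
        have e2 : (n + 1) / 3 = k + 1 := by omega
        have e3 : (n + 2) / 3 = k + 1 := by omega
        rw [e1, e2, e3]
        push_cast [Nat.cast_choose_two]
        ring
      have hnk' : (n : ℝ) = 3 * k + 2 := by exact_mod_cast hnk
      by_cases hb : (x = 0 ∨ x = 1) ∧ (y = 0 ∨ y = 1) ∧ (z = 0 ∨ z = 1)
      · rw [ht, ax, bx, dx]
        obtain ⟨h1, h2, h3⟩ := hb
        unfold P
        rcases h1 with h1 | h1 <;> rcases h2 with h2 | h2 <;> rcases h3 with h3 | h3 <;>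
          rw [h1, h2, h3] at hsum ⊢ <;> first | (exfalso; revert hsum; norm_num; done) |
            (push_cast; apply le_of_eq; ring)
      · have hq : (4 : ℤ) ≤ x ^ 2 + y ^ 2 + z ^ 2 := by
          by_contra hcon
          push Not at hcon
          apply hb
          have b1 : -1 ≤ x ∧ x ≤ 1 := by constructor <;> nlinarith [sq_nonneg y, sq_nonneg z]
          have b2 : -1 ≤ y ∧ y ≤ 1 := by constructor <;> nlinarith [sq_nonneg x, sq_nonneg z]
          have b3 : -1 ≤ z ∧ z ≤ 1 := by constructor <;> nlinarith [sq_nonneg x, sq_nonneg y]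
          obtain ⟨b1, b1'⟩ := b1
          obtain ⟨b2, b2'⟩ := b2
          obtain ⟨b3, b3'⟩ := b3
          clear hb ax bx dx hx hy hz
          interval_cases x <;> interval_cases y <;> interval_cases z <;>
            first | (exfalso; revert hsum; norm_num; done) |
              (exfalso; revert hcon; norm_num; done) | norm_num
        have hq' : (4 : ℝ) ≤ (x : ℝ) ^ 2 + (y : ℝ) ^ 2 + (z : ℝ) ^ 2 := by exact_mod_cast hq
        have hsum' : (x : ℝ) + y + z = 2 := by exact_mod_cast hsum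
        have hSe : S = 3 * (k : ℝ) ^ 2 + 4 * k + ((x : ℝ) ^ 2 + (y : ℝ) ^ 2 + (z : ℝ) ^ 2) := by
          rw [hS, ax, bx, dx]
          linear_combination (2 * (k : ℝ)) * hsum'
        have hS3 : 3 * (k : ℝ) ^ 2 + 4 * k + 4 ≤ S := by linarith
        have := mul_le_mul_of_nonneg_left hS3 hcoef
        have hk2 : (6 : ℝ) ≤ 3 * k := by linarith
        rw [ht]
        rw [hnk'] at h this
        nlinarith

lemma sum_sz : (Cls c 0).card + (Cls c 1).card + (Cls c 2).card = n := by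
  have h := card_eq_sum_card_fiberwise (s := (univ : Finset (Fin n)))
    (t := (univ : Finset (Fin 3))) (f := c) (fun _ _ => mem_univ _)
  rw [card_univ, Fintype.card_fin, Fin.sum_univ_three] at h
  exact h.symm

theorem turan_le : (turan c).card ≤ tnum n := by
  have h1 := six_turan (c := c)
  have h2 := P_le_tnum (Cls c 0).card (Cls c 1).card (Cls c 2).card
  rw [sum_sz] at h2
  have h3 : 6 * ((turan c).card : ℝ) = 3 * P (Cls c 0).card (Cls c 1).card (Cls c 2).card := by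
    rw [h1]
    unfold P sz
    ring
  have h4 : ((turan c).card : ℝ) ≤ (tnum n : ℕ) := by linarith
  exact_mod_cast h4

theorem turan_free (S : Finset (Fin n)) (hS : S.card = 4) : ∃ t ⊆ S, t.card = 3 ∧ t ∉ turan c := by
  obtain ⟨x, y, z, w, hxy, hxz, hxw, hyz, hyw, hzw, rfl⟩ := card_eq_four.1 hS
  have key : ∀ p q r s : Fin 3, ty p q r = false ∨ ty p q s = false ∨ ty p r s = false ∨
      ty q r s = false := by unfold ty; decide
  have c3 : ∀ a b d : Fin n, a ≠ b → a ≠ d → b ≠ d → ({a, b, d} : Finset (Fin n)).card = 3 :=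
    fun a b d h1 h2 h3 => card_eq_three.2 ⟨a, b, d, h1, h2, h3, rfl⟩
  rcases key (c x) (c y) (c z) (c w) with h | h | h | h
  · refine ⟨{x, y, z}, ?_, c3 _ _ _ hxy hxz hyz, ?_⟩
    · intro u hu; simp only [mem_insert, mem_singleton] at hu ⊢; tauto
    · rw [mem_turan hxy hxz hyz, h]; simp
  · refine ⟨{x, y, w}, ?_, c3 _ _ _ hxy hxw hyw, ?_⟩
    · intro u hu; simp only [mem_insert, mem_singleton] at hu ⊢; tauto
    · rw [mem_turan hxy hxw hyw, h]; simp
  · refine ⟨{x, z, w}, ?_, c3 _ _ _ hxz hxw hzw, ?_⟩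
    · intro u hu; simp only [mem_insert, mem_singleton] at hu ⊢; tauto
    · rw [mem_turan hxz hxw hzw, h]; simp
  · refine ⟨{y, z, w}, ?_, c3 _ _ _ hyz hyw hzw, ?_⟩
    · intro u hu; simp only [mem_insert, mem_singleton] at hu ⊢; tauto
    · rw [mem_turan hyz hyw hzw, h]; simp

end Pool.Agent.X59.LF
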